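import Pool.Agent.W229.HD.Stm

/-! Project HD: conservation of energy. -/

set_option autoImplicit false

namespace Pool.Agent.W369.HD

open Pool.Agent.W229.HD

theorem dt_comm (v w : E3) : dt v w = dt w v := by
  unfold dt
  exact Finset.sum_congr rfl fun j _ => mul_comm _ _

theorem dt_zero_right (v : E3) : dt v 0 = 0 := by simp [dt]

theorem dt_zero_left (v : E3) : dt 0 v = 0 := by simp [dt]

theorem dt_smul_left (c : ℂ) (v w : E3) : dt (c • v) w = c * dt v w := by
  simp only [dt, PiLp.smul_apply, smul_eq_mul, Finset.mul_sum]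
  exact Finset.sum_congr rfl fun _ _ => by ring

theorem dt_add_left (u v w : E3) : dt (u + v) w = dt u w + dt v w := by
  simp [dt, add_mul, Finset.sum_add_distrib]

theorem dt_sum_left {ι : Type*} (s : Finset ι) (f : ι → E3) (w : E3) :
    dt (∑ i ∈ s, f i) w = ∑ i ∈ s, dt (f i) w := by
  classical
  induction s using Finset.induction_on with
  | empty => simp [dt_zero_left]
  | insert a s ha ih => rw [Finset.sum_insert ha, Finset.sum_insert ha, dt_add_left, ih]

theorem dt_kc_sub (v : E3) (k l : K3) : dt v (kc (k - l)) = dt v (kc k) - dt v (kc l) := by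
  simp [dt, kc, mul_sub, Finset.sum_sub_distrib]

theorem dt_kc_neg (v : E3) (k : K3) : dt v (kc (-k)) = -dt v (kc k) := by
  simp [dt, kc]

theorem ene : S_ENE := by
  intro S a hS ha
  have key : ∀ l ∈ S, (∑ k ∈ S, dt ((Complex.I * dt (a l) (kc (k - l))) • a (k - l)) (a (-k)))
      = 0 := by
    intro l hl
    set F : K3 → ℂ := fun k => Complex.I * dt (a l) (kc k) * dt (a (k - l)) (a (-k)) with hF
    have hl0 : dt (a l) (kc l) = 0 := by rw [dt_comm]; exact ha.div l
    have h1 : ∀ k, dt ((Complex.I * dt (a l) (kc (k - l))) • a (k - l)) (a (-k)) = F k := by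
      intro k
      rw [dt_smul_left, dt_kc_sub, hl0, sub_zero]
    have h2 : ∑ k ∈ S, dt ((Complex.I * dt (a l) (kc (k - l))) • a (k - l)) (a (-k))
        = ∑' k, F k := by
      rw [tsum_eq_sum (s := S)]
      · exact Finset.sum_congr rfl fun k _ => h1 k
      · intro k hk
        have hk' : -k ∉ S := fun h => hk (by simpa using hS.neg _ h)
        simp only [hF, ha.supp _ hk', dt_zero_right, mul_zero]
    have h3 : ∀ k, F (l - k) = -F k := by
      intro k
      simp only [hF]
      rw [dt_kc_sub, hl0, zero_sub, show l - k - l = -k by abel,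
        show -(l - k) = k - l by abel, dt_comm (a (-k))]
      ring
    have h4 : ∑' k, F k = ∑' k, F (l - k) := ((Equiv.subLeft l).tsum_eq F).symm
    rw [h2]
    have h5 : ∑' k, F (l - k) = -∑' k, F k := by
      rw [← tsum_neg]; exact tsum_congr h3
    rw [h5] at h4
    have : (2 : ℂ) * ∑' k, F k = 0 := by linear_combination h4
    simpa using this
  have h6 : ∑ k ∈ S, dt (cv S a k) (a (-k)) = 0 := by
    unfold cv
    simp_rw [dt_sum_left]
    rw [Finset.sum_comm]
    exact Finset.sum_eq_zero key
  have h7 : ∀ k ∈ S, ((nm k ^ (0 : ℝ) : ℝ) : ℂ) * dt (cv S a k) (a (-k))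
      = dt (cv S a k) (a (-k)) := by
    intro k _
    rw [Real.rpow_zero]; simp
  unfold Pr
  rw [Finset.sum_congr rfl h7, h6]
  rfl

end Pool.Agent.W369.HD
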